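import Pool.Agent.Helper36.HS.St
import Pool.Agent.Helper4.HV.FN

/-! # HS module NF: the image ultrafilter is fine and normal -/

namespace Pool.Agent.Helper69.HS.NF

open Ordinal Cardinal ZFSet Order Pool.Agent.Helper73.HODC Pool.Agent.Helper73.HE
open Pool.Agent.Helper73.HM Pool.Agent.Helper73.HU Pool.Agent.Helper73.HV
open Pool.Agent.Helper86.HU.PF Pool.Agent.Helper4.HV.FN Pool.Agent.Helper36.HS

theorem mem_grOn {P : ZFSet.{0}} {f : ZFSet.{0} → Ordinal.{0}} {z : ZFSet.{0}} :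
    z ∈ grOn P f ↔ ∃ x ∈ P, z = ZFSet.pair x (f x).toZFSet := by
  rw [grOn, ZFSet.mem_range]
  constructor
  · rintro ⟨x, rfl⟩
    exact ⟨x.1, x.2, rfl⟩
  · rintro ⟨x, hx, rfl⟩
    exact ⟨⟨x, hx⟩, rfl⟩

theorem pair_mem_grOn {P : ZFSet.{0}} {f : ZFSet.{0} → Ordinal.{0}} {x : ZFSet.{0}}
    (hx : x ∈ P) (b : Ordinal.{0}) :
    ZFSet.pair x b.toZFSet ∈ grOn P f ↔ f x = b := by
  rw [mem_grOn]
  constructor
  · rintro ⟨y, hy, h⟩
    obtain ⟨rfl, h2⟩ := pair_inj.1 h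
    exact (Ordinal.toZFSet_injective h2).symm
  · rintro rfl
    exact ⟨x, hx, rfl⟩

/-- the relation `pair x b ∈ G` -/
theorem dp_pairG {G : ZFSet.{0}} (hG : HOD G) (i j : ℕ) :
    DP (fun v => ZFSet.pair (v i) (v j).rank.toZFSet ∈ G) := by
  refine (DP.ex (Q := fun w v => (w = w.rank.toZFSet ∧ w.rank = (v j).rank) ∧
    ZFSet.pair (v i) w ∈ G) ?_).congr fun v => ?_
  · refine ((DP.isOrd 0).and (DP.rank_eq 0 (j + 1))).and ?_
    exact dp_subst_HOD (Q := fun x v => ZFSet.pair (v (i + 1)) (v 0) ∈ x)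
      (DP.of (dfn_pair_mem (i + 2) 1 0)) hG
  · constructor
    · intro h
      exact ⟨_, ⟨by rw [rank_toZFSet], rank_toZFSet _⟩, h⟩
    · rintro ⟨w, ⟨h1, h2⟩, h3⟩
      rw [h1, h2] at h3
      exact h3

theorem nf (h : StHP) : StNF := by
  intro δ τ ρ U R hU hρ hR hX hi hnorm
  -- the index set
  have hPD : DPs {a | xx τ R a ∈ hodSmall δ τ} := dps_prx hR (dp_small h 0)
  have hPU : ordSet τ {a | xx τ R a ∈ hodSmall δ τ} ∈ U := by
    obtain ⟨X, hXU, hX⟩ := hX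
    have hXs := (mem_hodPow.1 (hU.sub X hXU)).1
    refine hU.up X hXU _ (Pool.Agent.Helper29.HM.NM.ordSet_mem hPD τ) fun z hz => ?_
    obtain ⟨a, ha, rfl⟩ := mem_toZFSet_iff.1 (hXs hz)
    refine (mem_ordSet _ _ _).2 ⟨a, ha, mem_small.2 ⟨xx_mem hR a, ?_⟩, rfl⟩
    rw [st_xx]
    exact hX a ((mem_st_iff hXs).2 hz)
  have hmem : ∀ X, X ∈ ZFSet.sep (fun X => HOD X ∧ ordSet τ {a | xx τ R a ∈ X} ∈ U)
      (ZFSet.powerset (hodSmall δ τ)) ↔
      X ⊆ hodSmall δ τ ∧ HOD X ∧ ordSet τ {a | xx τ R a ∈ X} ∈ U := fun X => by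
    rw [ZFSet.mem_sep, ZFSet.mem_powerset]
  have hpre : ∀ X, HOD X → DPs {a | xx τ R a ∈ X} := fun X hX => dps_prx hR (dp_memH hX)
  refine ⟨ZFSet.sep (fun X => HOD X ∧ ordSet τ {a | xx τ R a ∈ X} ∈ U)
      (ZFSet.powerset (hodSmall δ τ)), ⟨?_, ?_, ?_, ?_, ?_, ?_⟩, ?_⟩
  · -- hod
    refine HOD.intro _ (DP.od ?_) fun y hy => ((hmem y).1 hy).2.1
    refine (DP.all (Q := fun z v => z ∈ v 0 ↔ ((∀ t : ZFSet.{0}, t ∈ z → t ∈ hodSmall δ τ) ∧
      OD z ∧ ∃ y : ZFSet.{0}, y ∈ U ∧ ∀ a : Ordinal.{0}, a ∈ st y ↔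
        (a < τ ∧ ∃ w : ZFSet.{0}, w = xx τ R a ∧ w ∈ z))) ?_).congr ?_
    · refine (DP.mem 0 1).iff (DP.and ?_ ((DP.of (h.1 0)).and ?_))
      · refine DP.all (Q := fun t v => t ∈ v 0 → t ∈ hodSmall δ τ) ?_
        exact (DP.mem 0 1).imp (dp_small h 0)
      · refine DP.ex (Q := fun y v => y ∈ U ∧ ∀ a : Ordinal.{0}, a ∈ st y ↔
          (a < τ ∧ ∃ w : ZFSet.{0}, w = xx τ R a ∧ w ∈ v 0)) ?_
        refine (dp_memH hU.hod).and ?_
        refine DP.allO (Q := fun a v => a ∈ st (v 0) ↔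
          (a < τ ∧ ∃ w : ZFSet.{0}, w = xx τ R a ∧ w ∈ v 1)) ?_
        refine (DP.st 0 1).iff ((DP.rank_lt_ord 0 τ).and ?_)
        refine DP.ex (Q := fun w v => w = xx τ R (v 0).rank ∧ w ∈ v 2) ?_
        exact (dp_xx' hR 0 1).and (DP.mem 0 3)
    · intro v
      rw [ZFSet.ext_iff]
      refine forall_congr' fun z => iff_congr Iff.rfl ?_
      rw [hmem z]
      constructor
      · rintro ⟨h1, h2, h3⟩
        refine ⟨fun t ht => h1 ht, HOD.od h2, _, h3, fun a => ?_⟩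
        rw [mem_st_ordSet]
        refine and_congr_right fun _ => ?_
        exact ⟨fun h2 => ⟨_, rfl, h2⟩, by rintro ⟨b, rfl, h2⟩; exact h2⟩
      · rintro ⟨h1, h2, y, hy, h3⟩
        refine ⟨fun t ht => h1 t ht, HOD.intro _ h2 fun t ht => hod_small (h1 t ht), ?_⟩
        have h4 : y = ordSet τ {a | xx τ R a ∈ z} := by
          refine ext_st (mem_hodPow.1 (hU.sub y hy)).1 (ordSet_sub _ _) fun a => ?_
          rw [h3, mem_st_ordSet]
          refine and_congr_right fun _ => ?_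
          exact ⟨by rintro ⟨b, rfl, h2⟩; exact h2, fun h2 => ⟨_, rfl, h2⟩⟩
        rw [← h4]
        exact hy
  · -- sub
    intro X hX
    exact ((hmem X).1 hX).1
  · -- up
    intro X hX Y hY hYs hXY
    obtain ⟨h1, h2, h3⟩ := (hmem X).1 hX
    exact (hmem Y).2 ⟨hYs, hY, mono_mem hU (hpre Y hY) h3 fun a _ ha =>
      hXY (show xx τ R a ∈ X from ha)⟩
  · -- ultra
    intro X hX hXs
    have hd : HOD (hodSmall δ τ \ X) := by
      have h1 : hodSmall δ τ \ X = ZFSet.sep (fun z => z ∉ X) (hodSmall δ τ) := by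
        ext z
        rw [ZFSet.mem_sdiff, ZFSet.mem_sep]
      rw [h1]
      exact hod_sep h (dp_memH hX).not
    have hds : hodSmall δ τ \ X ⊆ hodSmall δ τ := fun z hz => (ZFSet.mem_sdiff.1 hz).1
    rw [hmem, hmem]
    constructor
    · rintro ⟨-, -, h1⟩ ⟨-, -, h2⟩
      have h3 := inter_mem' hU hρ (hpre X hX) (hpre _ hd) h1 h2
      obtain ⟨a, -, h4, h5⟩ := exists_of_mem hU (dps_and (hpre X hX) (hpre _ hd)) h3
      have h4' : xx τ R a ∈ X := h4
      have h5' : xx τ R a ∈ hodSmall δ τ \ X := h5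
      exact (ZFSet.mem_sdiff.1 h5').2 h4'
    · intro h1
      refine ⟨hXs, hX, ?_⟩
      by_contra h2
      have h3 : ordSet τ {a | xx τ R a ∈ X}ᶜ ∈ U := by
        by_contra h4
        exact h2 ((compl_mem hU (hpre X hX)).2 h4)
      have h4 := inter_mem' hU hρ (dps_compl (hpre X hX)) hPD h3 hPU
      refine h1 ⟨hds, hd, mono_mem hU (hpre _ hd) h4 fun a _ ha => ?_⟩
      have ha1 : xx τ R a ∉ X := ha.1
      have ha2 : xx τ R a ∈ hodSmall δ τ := ha.2
      show xx τ R a ∈ hodSmall δ τ \ X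
      exact ZFSet.mem_sdiff.2 ⟨ha2, ha1⟩
  · -- fine
    intro i hiτ
    have hQ : DP (fun v => i ∈ st (v 0)) :=
      dp_subst_at (Q := fun x v => x ∈ st (v 0)) (DP.st 0 1) i
    have hH : HOD (ZFSet.sep (fun x => i ∈ st x) (hodSmall δ τ)) := hod_sep h hQ
    rw [hmem]
    refine ⟨fun z hz => (ZFSet.mem_sep.1 hz).1, hH, ?_⟩
    have hRi : DPs {a | R a i} := by
      have h1 : DP (fun v => R (v 1).rank (v 0).rank) :=
        hR.rename (fun n => if n = 0 then 1 else 0)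
      exact dp_subst_at (Q := fun x v => R (v 0).rank x) h1 i
    have h1 := inter_mem' hU hρ hRi hPD (hi i hiτ) hPU
    refine mono_mem hU (hpre _ hH) h1 fun a _ ha => ?_
    have ha2 : xx τ R a ∈ hodSmall δ τ := ha.2
    show xx τ R a ∈ ZFSet.sep (fun x => i ∈ st x) (hodSmall δ τ)
    refine ZFSet.mem_sep.2 ⟨ha2, ?_⟩
    rw [st_xx]
    exact ⟨hiτ, ha.1⟩
  · -- complete
    intro γ hγ F hF hFW
    have hrel := dp_F hF
    have hrel' : DP (fun v => (v 0).rank < γ ∧ (v 1).rank < τ ∧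
        (v 1).rank ∈ {a | xx τ R a ∈ F (v 0).rank}) := by
      have h1 : DP (fun v => ∃ z : ZFSet.{0}, z = xx τ R (v 1).rank ∧
          ((v 0).rank < γ ∧ z ∈ F (v 0).rank)) := by
        refine DP.ex (Q := fun z v => z = xx τ R (v 1).rank ∧
          ((v 0).rank < γ ∧ z ∈ F (v 0).rank)) ?_
        exact (dp_xx' hR 0 2).and (hrel.rename (fun n => if n = 0 then 1 else 0))
      refine ((DP.rank_lt_ord 1 τ).and h1).congr fun v => ?_
      constructor
      · rintro ⟨h2, h3, h4⟩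
        exact ⟨h3, _, rfl, h2, h4⟩
      · rintro ⟨h2, z, rfl, h3, h4⟩
        exact ⟨h3, h2, h4⟩
    have h1 := hU.complete γ hγ (fun ξ => {a | xx τ R a ∈ F ξ})
      (HOD_seqSet _ _ _ ((odRel_iff_DP _).2 hrel')) (fun ξ hξ => ((hmem _).1 (hFW ξ hξ)).2.2)
    have hQ : DP (fun v => ∀ ξ : Ordinal.{0}, ξ < γ → v 0 ∈ F ξ) := by
      have h2 : DP (fun v => ∀ ξ : Ordinal.{0}, ξ < γ → (ξ < γ ∧ v 0 ∈ F ξ)) := by
        refine DP.allO (Q := fun ξ v => ξ < γ → (ξ < γ ∧ v 0 ∈ F ξ)) ?_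
        exact (DP.rank_lt_ord 0 γ).imp hrel
      refine h2.congr fun v => ?_
      exact ⟨fun h3 ξ hξ => ⟨hξ, h3 ξ hξ⟩, fun h3 ξ hξ => (h3 ξ hξ).2⟩
    have hH : HOD (ZFSet.sep (fun x => ∀ ξ < γ, x ∈ F ξ) (hodSmall δ τ)) := hod_sep h hQ
    have hD2 : DPs {a | ∀ ξ < γ, xx τ R a ∈ F ξ} := 
      dps_prx (Q := fun z => ∀ ξ : Ordinal.{0}, ξ < γ → z ∈ F ξ) hR hQ
    rw [hmem]
    refine ⟨fun z hz => (ZFSet.mem_sep.1 hz).1, hH, ?_⟩
    have h3 := inter_mem' hU hρ hPD hD2 hPU h1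
    refine mono_mem hU (hpre _ hH) h3 fun a _ ha => ?_
    show xx τ R a ∈ ZFSet.sep (fun x => ∀ ξ < γ, x ∈ F ξ) (hodSmall δ τ)
    exact ZFSet.mem_sep.2 ⟨ha.1, ha.2⟩
  · -- normal
    intro f hf X hX hfx
    classical
    obtain ⟨h1, h2, h3⟩ := (hmem X).1 hX
    set G := grOn (hodSmall δ τ) f with hG
    let r : Ordinal.{0} → Ordinal.{0} := fun a =>
      if xx τ R a ∈ hodSmall δ τ then f (xx τ R a) else 0
    have hr1 : ∀ a, xx τ R a ∈ hodSmall δ τ → r a = f (xx τ R a) := fun a ha => if_pos ha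
    have hr0 : ∀ a, xx τ R a ∉ hodSmall δ τ → r a = 0 := fun a ha => if_neg ha
    have hPD' : DP (fun v => xx τ R (v 0).rank ∈ hodSmall δ τ) := hPD
    have hrD : DP (fun v => r (v 0).rank = (v 1).rank) := by
      have e1 : DP (fun v => xx τ R (v 0).rank ∈ hodSmall δ τ ∧
          ∃ z : ZFSet.{0}, z = xx τ R (v 0).rank ∧ ZFSet.pair z (v 1).rank.toZFSet ∈ G) := by
        refine hPD'.and ?_
        refine DP.ex (Q := fun z v => z = xx τ R (v 0).rank ∧
          ZFSet.pair z (v 1).rank.toZFSet ∈ G) ?_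
        exact (dp_xx' hR 0 1).and (dp_pairG hf 0 2)
      have e2 : DP (fun v => xx τ R (v 0).rank ∉ hodSmall δ τ ∧ (v 1).rank = 0) :=
        hPD'.not.and (DP.rank_eq_ord 1 0)
      refine (e1.or e2).congr fun v => ?_
      constructor
      · intro hv
        by_cases ha : xx τ R (v 0).rank ∈ hodSmall δ τ
        · refine Or.inl ⟨ha, _, rfl, ?_⟩
          rw [hG, pair_mem_grOn ha, ← hr1 _ ha]
          exact hv
        · exact Or.inr ⟨ha, by rw [← hv, hr0 _ ha]⟩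
      · rintro (⟨ha, z, rfl, hz⟩ | ⟨ha, hz⟩)
        · rw [hG, pair_mem_grOn ha] at hz
          rw [hr1 _ ha, hz]
        · rw [hr0 _ ha, hz]
    have hD3 : DPs {a | r a < τ ∧ R a (r a)} := by
      have e1 : DP (fun v => ∃ b : Ordinal.{0}, r (v 0).rank = b ∧ b < τ ∧
          R (v 0).rank b) := by
        refine DP.exO (Q := fun b v => r (v 0).rank = b ∧ b < τ ∧ R (v 0).rank b) ?_
        exact (hrD.rename (fun n => if n = 0 then 1 else 0)).and
          ((DP.rank_lt_ord 0 τ).and (hR.rename (fun n => if n = 0 then 1 else 0)))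
      refine e1.congr fun v => ?_
      constructor
      · rintro ⟨h4, h5⟩
        exact ⟨_, rfl, h4, h5⟩
      · rintro ⟨b, rfl, h4, h5⟩
        exact ⟨h4, h5⟩
    have h4 : ordSet τ {a | r a < τ ∧ R a (r a)} ∈ U := by
      refine mono_mem hU hD3 h3 fun a _ ha => ?_
      have ha' : xx τ R a ∈ X := ha
      have h5 := hfx _ ha'
      rw [st_xx] at h5
      show r a < τ ∧ R a (r a)
      rw [hr1 a (h1 ha')]
      exact h5
    obtain ⟨η, hη, h5⟩ := hnorm r hrD h4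
    refine ⟨η, hη, ?_⟩
    have hQ : DP (fun v => ZFSet.pair (v 0) η.toZFSet ∈ G) := by
      have e1 : DP (fun v => ∃ b : Ordinal.{0}, b = η ∧ ZFSet.pair (v 0) b.toZFSet ∈ G) := by
        refine DP.exO (Q := fun b v => b = η ∧ ZFSet.pair (v 0) b.toZFSet ∈ G) ?_
        exact (DP.rank_eq_ord 0 η).and (dp_pairG hf 1 0)
      refine e1.congr fun v => ?_
      constructor
      · intro h6
        exact ⟨η, rfl, h6⟩
      · rintro ⟨b, rfl, h6⟩
        exact h6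
    have hsep : ZFSet.sep (fun x => f x = η) (hodSmall δ τ) =
        ZFSet.sep (fun x => ZFSet.pair x η.toZFSet ∈ G) (hodSmall δ τ) := by
      ext z
      rw [ZFSet.mem_sep, ZFSet.mem_sep]
      refine and_congr_right fun hz => ?_
      rw [hG, pair_mem_grOn hz]
    have hH : HOD (ZFSet.sep (fun x => f x = η) (hodSmall δ τ)) := by
      rw [hsep]
      exact hod_sep h hQ
    rw [hmem]
    refine ⟨fun z hz => (ZFSet.mem_sep.1 hz).1, hH, ?_⟩
    have hrη : DPs {a | r a = η} := by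
      have e1 : DP (fun v => ∃ b : Ordinal.{0}, r (v 0).rank = b ∧ b = η) := by
        refine DP.exO (Q := fun b v => r (v 0).rank = b ∧ b = η) ?_
        exact (hrD.rename (fun n => if n = 0 then 1 else 0)).and (DP.rank_eq_ord 0 η)
      refine e1.congr fun v => ?_
      constructor
      · intro h6
        exact ⟨_, rfl, h6⟩
      · rintro ⟨b, h6, rfl⟩
        exact h6
    have h6 := inter_mem' hU hρ hrη (hpre X h2) h5 h3
    refine mono_mem hU (hpre _ hH) h6 fun a _ ha => ?_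
    have ha1 : r a = η := ha.1
    have ha2 : xx τ R a ∈ X := ha.2
    show xx τ R a ∈ ZFSet.sep (fun x => f x = η) (hodSmall δ τ)
    refine ZFSet.mem_sep.2 ⟨h1 ha2, ?_⟩
    rw [← hr1 a (h1 ha2), ha1]

end Pool.Agent.Helper69.HS.NF
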